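import Pool.Agent.H193R5.EG.Stmts
import Pool.Agent.H922R2.K2

/-!
# Keller's theorem: birational plane Keller maps are automorphisms (elementary proof)
-/

set_option autoImplicit false
set_option linter.unusedSectionVars false
set_option linter.style.haveILetI false

open MvPolynomial Pool.Agent.H88R2.DC

namespace Pool.Agent.H510R3.EG

variable {K : Type} [Field K] [CharZero K]

/-- a prime ideal containing a prime element and a non-multiple of it is maximal -/
theorem isMaximal_of (P : Ideal (MvPolynomial (Fin 2) K)) (hP : P.IsPrime)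
    (p c : MvPolynomial (Fin 2) K) (hp : Prime p) (hpP : p ∈ P) (hcP : c ∈ P) (hpc : ¬ p ∣ c) :
    P.IsMaximal := by
  by_contra hmax
  obtain ⟨M, hM, hPM⟩ := Ideal.exists_le_maximal P hP.ne_top
  have hlt3 : P < M := lt_of_le_of_ne hPM (fun h => hmax (h ▸ hM))
  have hp' : (Ideal.span {p}).IsPrime := (Ideal.span_singleton_prime hp.ne_zero).2 hp
  have hlt2 : Ideal.span {p} < P := by
    refine lt_of_le_of_ne ((Ideal.span_singleton_le_iff_mem _).2 hpP) ?_
    intro h
    rw [← h, Ideal.mem_span_singleton] at hcP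
    exact hpc hcP
  have hlt1 : (⊥ : Ideal (MvPolynomial (Fin 2) K)) < Ideal.span {p} := by
    rw [bot_lt_iff_ne_bot, Ne, Ideal.span_singleton_eq_bot]
    exact hp.ne_zero
  let s : LTSeries (PrimeSpectrum (MvPolynomial (Fin 2) K)) :=
    { length := 3
      toFun := ![⟨⊥, Ideal.isPrime_bot⟩, ⟨_, hp'⟩, ⟨P, hP⟩, ⟨M, hM.isPrime⟩]
      step := by
        intro i
        fin_cases i
        · exact hlt1
        · exact hlt2
        · exact hlt3 }
  have h := Order.LTSeries.length_le_krullDim s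
  have h2 : ringKrullDim (MvPolynomial (Fin 2) K) = 2 := by
    rw [MvPolynomial.ringKrullDim_of_isNoetherianRing, ringKrullDim_eq_zero_of_field]
    simp
  have h3 : Order.krullDim (PrimeSpectrum (MvPolynomial (Fin 2) K)) = 2 := h2
  rw [h3] at h
  have h4 : ((3 : ℕ) : WithBot ℕ∞) ≤ ((2 : ℕ) : WithBot ℕ∞) := h
  have h5 : (3 : ℕ) ≤ 2 := by exact_mod_cast h4
  omega

/-- modulo such a prime ideal every element is algebraic -/
theorem algebraic_of (P : Ideal (MvPolynomial (Fin 2) K)) (hP : P.IsPrime)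
    (p c : MvPolynomial (Fin 2) K) (hp : Prime p) (hpP : p ∈ P) (hcP : c ∈ P) (hpc : ¬ p ∣ c)
    (f : MvPolynomial (Fin 2) K) :
    ∃ m : Polynomial K, m ≠ 0 ∧ Polynomial.aeval f m ∈ P := by
  haveI hmax := isMaximal_of P hP p c hp hpP hcP hpc
  letI := Ideal.Quotient.field P
  haveI : Module.Finite K (MvPolynomial (Fin 2) K ⧸ P) :=
    finite_of_finite_type_of_isJacobsonRing K (MvPolynomial (Fin 2) K ⧸ P)
  have hint : IsIntegral K (Ideal.Quotient.mk P f) := Algebra.IsIntegral.isIntegral _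
  obtain ⟨m, hm, hm0⟩ := hint
  refine ⟨m, hm.ne_zero, ?_⟩
  rw [← Ideal.Quotient.eq_zero_iff_mem]
  have h1 : Ideal.Quotient.mk P (Polynomial.aeval f m) =
      Polynomial.aeval (Ideal.Quotient.mk P f) m := by
    have := Polynomial.aeval_algHom_apply (Ideal.Quotient.mkₐ K P) f m
    exact this.symm
  rw [h1]
  exact hm0

/-- a polynomial relation modulo a prime ideal whose derivative is not a relation -/
theorem separable_of (Q : Ideal (MvPolynomial (Fin 2) K)) (hQ : Q.IsPrime)
    (f : MvPolynomial (Fin 2) K) (h : ∃ m : Polynomial K, m ≠ 0 ∧ Polynomial.aeval f m ∈ Q) :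
    ∃ m : Polynomial K, Polynomial.aeval f m ∈ Q ∧ Polynomial.aeval f (Polynomial.derivative m) ∉ Q := by
  classical
  have hex : ∃ d : ℕ, ∃ m : Polynomial K, m ≠ 0 ∧ Polynomial.aeval f m ∈ Q ∧ m.natDegree = d := by
    obtain ⟨m, hm, hm2⟩ := h
    exact ⟨_, m, hm, hm2, rfl⟩
  obtain ⟨m, hm, hm2, hd⟩ := Nat.find_spec hex
  refine ⟨m, hm2, fun hder => ?_⟩
  have hdeg : m.natDegree ≠ 0 := by
    intro h0
    obtain ⟨a, ha⟩ := Polynomial.natDegree_eq_zero.1 h0
    have ha0 : a ≠ 0 := by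
      rintro rfl
      exact hm (by rw [← ha, map_zero])
    apply hQ.ne_top
    rw [Ideal.eq_top_iff_one]
    rw [← ha, Polynomial.aeval_C] at hm2
    have h1 := Q.mul_mem_left (C a⁻¹) hm2
    rw [MvPolynomial.algebraMap_eq, ← C_mul, inv_mul_cancel₀ ha0, C_1] at h1
    exact h1
  have hder0 : Polynomial.derivative m ≠ 0 := by
    intro h0
    exact hdeg (Polynomial.derivative_eq_zero.1 h0)
  have hlt := Polynomial.natDegree_derivative_lt hdeg
  exact Nat.find_min hex (hd ▸ hlt) ⟨_, hder0, hder, rfl⟩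

theorem pb_mul (a b g h : MvPolynomial (Fin 2) K) :
    pb (a * g) (b * h) = a * b * pb g h + a * h * pb g b + g * b * pb a h + g * h * pb a b := by
  unfold pb
  simp only [Derivation.leibniz, smul_eq_mul]
  ring

theorem pb_self (g : MvPolynomial (Fin 2) K) : pb g g = 0 := by
  unfold pb
  ring

theorem pb_aeval (f g : MvPolynomial (Fin 2) K) (m n : Polynomial K) :
    pb (Polynomial.aeval f m) (Polynomial.aeval g n) =
      Polynomial.aeval f (Polynomial.derivative m) * Polynomial.aeval g (Polynomial.derivative n) *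
        pb f g := by
  unfold pb
  rw [Derivation.map_aeval, Derivation.map_aeval, Derivation.map_aeval, Derivation.map_aeval]
  simp only [smul_eq_mul]
  ring

theorem inj (φ : MvPolynomial (Fin 2) K →ₐ[K] MvPolynomial (Fin 2) K) (κ : K) (hκ : κ ≠ 0)
    (hpb : pb (φ (X 0)) (φ (X 1)) = C κ) (f : MvPolynomial (Fin 2) K) (hf : φ f = 0) : f = 0 := by
  have hφ : φ = aeval ![φ (X 0), φ (X 1)] := by
    apply MvPolynomial.algHom_ext
    intro i
    rw [aeval_X]
    fin_cases i <;> simp
  have hJ' : IsUnit (Matrix.det (Pool.Agent.H922R2.jac ![φ (X 0), φ (X 1)])) := by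
    rw [Matrix.det_fin_two]
    change IsUnit (pb (φ (X 0)) (φ (X 1)))
    rw [hpb]
    exact (isUnit_iff_ne_zero.2 hκ).map C
  have h := Pool.Agent.H922R2.aeval_injective ![φ (X 0), φ (X 1)] hJ'
  rw [← hφ] at h
  exact h (by rw [hf, map_zero])

/-- the key step -/
theorem key (φ : MvPolynomial (Fin 2) K →ₐ[K] MvPolynomial (Fin 2) K) (κ : K) (hκ : κ ≠ 0)
    (hpb : pb (φ (X 0)) (φ (X 1)) = C κ) (p c : MvPolynomial (Fin 2) K) (hp : Prime p)
    (hdvd : φ p ∣ φ c) : p ∣ c := by
  by_contra hpc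
  have hp0 : φ p ≠ 0 := fun h => hp.ne_zero (inj φ κ hκ hpb p h)
  by_cases hu : IsUnit (φ p)
  · obtain ⟨a, -, ha⟩ := (MvPolynomial.isUnit_iff_eq_C_of_isReduced).1 hu
    have h1 : p - C a = 0 := by
      apply inj φ κ hκ hpb
      rw [map_sub, ha, sub_eq_zero]
      exact (φ.commutes a).symm
    rw [sub_eq_zero] at h1
    apply hp.not_isUnit
    rw [h1]
    have ha0 : a ≠ 0 := by
      rintro rfl
      exact hp.ne_zero (by rw [h1, C_0])
    exact (isUnit_iff_ne_zero.2 ha0).map C
  · obtain ⟨q, hq, hqp⟩ := WfDvdMonoid.exists_irreducible_factor hu hp0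
    have hqprime : Prime q := UniqueFactorizationMonoid.irreducible_iff_prime.1 hq
    have hQ : (Ideal.span {q}).IsPrime := (Ideal.span_singleton_prime hqprime.ne_zero).2 hqprime
    have hP : (Ideal.comap φ (Ideal.span {q})).IsPrime := Ideal.comap_isPrime φ (Ideal.span {q})
    have hpP : p ∈ Ideal.comap φ (Ideal.span {q}) := by
      rw [Ideal.mem_comap, Ideal.mem_span_singleton]
      exact hqp
    have hcP : c ∈ Ideal.comap φ (Ideal.span {q}) := by
      rw [Ideal.mem_comap, Ideal.mem_span_singleton]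
      exact hqp.trans hdvd
    have hrel : ∀ i : Fin 2, ∃ m : Polynomial K, Polynomial.aeval (φ (X i)) m ∈ Ideal.span {q} ∧
        Polynomial.aeval (φ (X i)) (Polynomial.derivative m) ∉ Ideal.span {q} := by
      intro i
      apply separable_of _ hQ
      obtain ⟨m, hm, hm2⟩ := algebraic_of _ hP p c hp hpP hcP hpc (X i)
      refine ⟨m, hm, ?_⟩
      rw [Ideal.mem_comap] at hm2
      rw [Polynomial.aeval_algHom_apply]
      exact hm2
    obtain ⟨m, hm, hm'⟩ := hrel 0
    obtain ⟨n, hn, hn'⟩ := hrel 1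
    have h1 := pb_aeval (φ (X 0)) (φ (X 1)) m n
    obtain ⟨a, ha⟩ := Ideal.mem_span_singleton.1 hm
    obtain ⟨b, hb⟩ := Ideal.mem_span_singleton.1 hn
    have h2 : Polynomial.aeval (φ (X 0)) (Polynomial.derivative m) *
        Polynomial.aeval (φ (X 1)) (Polynomial.derivative n) * C κ ∈ Ideal.span {q} := by
      rw [← hpb, ← h1, ha, hb, Ideal.mem_span_singleton, mul_comm q a, mul_comm q b, pb_mul,
        pb_self, mul_zero, zero_add]
      refine dvd_add (dvd_add ?_ ?_) ?_
      · exact dvd_mul_of_dvd_left (dvd_mul_left _ _) _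
      · exact dvd_mul_of_dvd_left (dvd_mul_right _ _) _
      · exact dvd_mul_of_dvd_left (dvd_mul_right _ _) _
    rcases hQ.mem_or_mem h2 with h3 | h3
    · rcases hQ.mem_or_mem h3 with h4 | h4
      · exact hm' h4
      · exact hn' h4
    · apply hQ.ne_top
      exact Ideal.eq_top_of_isUnit_mem _ h3 ((isUnit_iff_ne_zero.2 hκ).map C)

theorem main (φ : MvPolynomial (Fin 2) K →ₐ[K] MvPolynomial (Fin 2) K) (κ : K) (hκ : κ ≠ 0)
    (hpb : pb (φ (X 0)) (φ (X 1)) = C κ) (s : MvPolynomial (Fin 2) K) :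
    s ≠ 0 → ∀ u c, φ s * u = φ c → ∃ d, φ d = u := by
  induction s using UniqueFactorizationMonoid.induction_on_prime with
  | h₁ => exact fun h => absurd rfl h
  | h₂ s hs =>
    intro _ u c h
    obtain ⟨t, rfl⟩ := hs
    refine ⟨↑t⁻¹ * c, ?_⟩
    rw [map_mul, ← h, ← mul_assoc, ← map_mul, Units.inv_mul, map_one, one_mul]
  | h₃ s p hs hp ih =>
    intro _ u c h
    have h1 : φ p ∣ φ c := ⟨φ s * u, by rw [← h, map_mul]; ring⟩
    obtain ⟨c', rfl⟩ := key φ κ hκ hpb p c hp h1
    apply ih hs u c'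
    have hp0 : φ p ≠ 0 := fun h => hp.ne_zero (inj φ κ hκ hpb p h)
    apply mul_left_cancel₀ hp0
    rw [map_mul, map_mul] at h
    linear_combination h

theorem kelp_holds : Pool.Agent.H193R5.EG.KELP := by
  intro K _ _ φ κ hκ hpb h u
  obtain ⟨s, c, hs, hsc⟩ := h u
  exact main φ κ hκ hpb s hs u c hsc

end Pool.Agent.H510R3.EG
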